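import Mathlib

set_option autoImplicit false

open Filter Topology

namespace Pool.Agent.Results.MP_27f8b5_an.MeanErgodic

/-- `ℓ²(G)`, i.e. `L²` of the discrete group `G` -/
abbrev L2 (G : Type) : Type := lp (fun _ : G => ℂ) 2

/-- `T` is the operator of left convolution by the finitely supported measure `μ` -/
def IsConvolution {G : Type} [Group G] (μ : G →₀ ℂ) (T : L2 G →L[ℂ] L2 G) : Prop :=
  ∀ (f : L2 G) (x : G), T f x = ∑ y ∈ μ.support, μ y * f (y⁻¹ * x)

/-- power bounded operators -/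
def IsPowerBounded {E : Type} [NormedAddCommGroup E] [NormedSpace ℂ E] (T : E →L[ℂ] E) : Prop :=
  ∃ C : ℝ, ∀ n : ℕ, ‖T ^ n‖ ≤ C

/-- mean ergodic operators -/
def IsMeanErgodic {E : Type} [NormedAddCommGroup E] [NormedSpace ℂ E] (T : E →L[ℂ] E) : Prop :=
  ∀ f : E, ∃ g : E, Tendsto (fun n : ℕ => ((n : ℂ)⁻¹) • ∑ k ∈ Finset.range n, (T ^ k) f) atTop (𝓝 g)

section Abstract

variable {E : Type} [NormedAddCommGroup E] [InnerProductSpace ℂ E] [CompleteSpace E]

/-- even powers of a symmetric contraction without fixed points of the square tend to zero -/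
theorem pow_tendsto (S : E →L[ℂ] E) (hS : ‖S‖ ≤ 1) (hsym : ∀ f g : E, inner ℂ (S f) g = inner ℂ f (S g))
    (hfix : ∀ f : E, S (S f) = f → f = 0) (f : E) :
    Tendsto (fun n : ℕ => ((S ^ 2) ^ n) f) atTop (𝓝 0) := by
  have hsymn : ∀ (n : ℕ) (f g : E), inner ℂ ((S ^ n) f) g = inner ℂ f ((S ^ n) g) := by
    intro n
    induction n with
    | zero => intro f g; simp
    | succ n ih =>
      intro f g
      rw [pow_succ', mul_apply_eq_comp, hsym, ih, ← mul_apply_eq_comp,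
        ← pow_succ, pow_succ', ]
  have hle : ∀ n : ℕ, ‖(S ^ (n + 1)) f‖ ≤ ‖(S ^ n) f‖ := by
    intro n
    rw [pow_succ', mul_apply_eq_comp]
    calc _ ≤ ‖S‖ * ‖(S ^ n) f‖ := S.le_opNorm _
      _ ≤ 1 * ‖(S ^ n) f‖ := by gcongr
      _ = _ := one_mul _
  have hanti : Antitone fun n : ℕ => ‖(S ^ n) f‖ ^ 2 := by
    refine antitone_nat_of_succ_le fun n => ?_
    exact pow_le_pow_left₀ (norm_nonneg _) (hle n) 2
  have hconv := tendsto_atTop_ciInf hanti ⟨0, by rintro _ ⟨n, rfl⟩; positivity⟩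
  set L := ⨅ n : ℕ, ‖(S ^ n) f‖ ^ 2 with hL
  -- the key identity
  have hid : ∀ n m : ℕ, ‖(S ^ (2 * n)) f - (S ^ (2 * m)) f‖ ^ 2 =
      ‖(S ^ (2 * n)) f‖ ^ 2 - 2 * ‖(S ^ (n + m)) f‖ ^ 2 + ‖(S ^ (2 * m)) f‖ ^ 2 := by
    intro n m
    have h1 : RCLike.re (inner ℂ ((S ^ (2 * n)) f) ((S ^ (2 * m)) f)) = ‖(S ^ (n + m)) f‖ ^ 2 := by
      have e1 : inner ℂ ((S ^ (2 * n)) f) ((S ^ (2 * m)) f) =
          inner ℂ ((S ^ (n + m)) f) ((S ^ (n + m)) f) := by
        rw [hsymn, hsymn]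
        rw [← mul_apply_eq_comp, ← pow_add, ← mul_apply_eq_comp, ← pow_add]
        congr 3
        ring
      rw [e1, inner_self_eq_norm_sq_to_K]
      norm_cast
    rw [@norm_sub_sq ℂ, h1]
  have hcauchy : CauchySeq fun n : ℕ => (S ^ (2 * n)) f := by
    rw [Metric.cauchySeq_iff']
    intro ε hε
    have h2 := (Metric.tendsto_atTop.1 hconv) (ε ^ 2 / 4) (by positivity)
    obtain ⟨N, hN⟩ := h2
    refine ⟨N, fun n hn => ?_⟩
    have e1 := hN (2 * n) (by omega)
    have e2 := hN (n + N) (by omega)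
    have e3 := hN (2 * N) (by omega)
    rw [Real.dist_eq, abs_lt] at e1 e2 e3
    rw [dist_eq_norm]
    have h3 : ‖(S ^ (2 * n)) f - (S ^ (2 * N)) f‖ ^ 2 < ε ^ 2 := by
      rw [hid]
      linarith [e1.2, e2.1, e3.2]
    exact lt_of_pow_lt_pow_left₀ 2 hε.le h3
  obtain ⟨g, hg⟩ := cauchySeq_tendsto_of_complete hcauchy
  have hg0 : g = 0 := by
    apply hfix
    have h3 : Tendsto (fun n : ℕ => (S ^ (2 * (n + 1))) f) atTop (𝓝 g) :=
      hg.comp (tendsto_add_atTop_nat 1)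
    have h4 : Tendsto (fun n : ℕ => (S ^ (2 * (n + 1))) f) atTop (𝓝 (S (S g))) := by
      have : (fun n : ℕ => (S ^ (2 * (n + 1))) f) = fun n : ℕ => S (S ((S ^ (2 * n)) f)) := by
        funext n
        rw [show 2 * (n + 1) = 2 * n + 1 + 1 by ring, pow_succ', pow_succ']
        rfl
      rw [this]
      exact ((S.continuous.comp S.continuous).tendsto g).comp hg
    exact tendsto_nhds_unique h4 h3
  rw [hg0] at hg
  refine hg.congr fun n => ?_
  rw [← pow_mul]

theorem pow_formula {R : Type} [Ring R] (X N : R) (hXN : X * N = N * X) (hN : N * N = 0) (k : ℕ) :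
    (X * (1 + N)) ^ k = X ^ k * (1 + (k : R) * N) := by
  induction k with
  | zero => simp
  | succ k ih =>
    have hk : (k : R) * N = N * (k : R) := (Nat.cast_commute k N).eq
    have hkX : (k : R) * X = X * (k : R) := (Nat.cast_commute k X).eq
    have h1 : (1 + (k : R) * N) * X = X * (1 + (k : R) * N) := by
      rw [add_mul, mul_add, one_mul, mul_one, mul_assoc, ← hXN, ← mul_assoc, hkX, mul_assoc]
    rw [pow_succ, ih]
    calc X ^ k * (1 + (k : R) * N) * (X * (1 + N))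
        = X ^ k * (((1 + (k : R) * N) * X) * (1 + N)) := by noncomm_ring
      _ = X ^ k * (X * (1 + (k : R) * N) * (1 + N)) := by rw [h1]
      _ = X ^ k * X * (1 + (k : R) * N + N + (k : R) * (N * N)) := by noncomm_ring
      _ = X ^ (k + 1) * (1 + ((k + 1 : ℕ) : R) * N) := by
        rw [hN, ← pow_succ]
        push_cast
        noncomm_ring

theorem sum_formula {R : Type} [Ring R] (X : R) (n : ℕ) :
    (1 - X) * ∑ k ∈ Finset.range n, (k : R) * X ^ k =
      X * ∑ k ∈ Finset.range n, X ^ k - (n : R) * X ^ n := by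
  induction n with
  | zero => simp
  | succ n ih =>
    have hn : (n : R) * X = X * (n : R) := (Nat.cast_commute n X).eq
    have h1 : X * ((n : R) * X ^ n) = (n : R) * X ^ (n + 1) := by
      rw [← mul_assoc, ← hn, mul_assoc, ← pow_succ']
    rw [Finset.sum_range_succ, mul_add, ih, Finset.sum_range_succ, mul_add, sub_mul (1 : R) X,
      one_mul, h1, ← pow_succ']
    push_cast
    rw [add_mul, one_mul]
    abel

omit [CompleteSpace E] in
/-- mean ergodicity of `-U(1+N)` -/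
theorem meanErgodic_of (U N : E →L[ℂ] E) (hUN : U * N = N * U) (hN : N * N = 0)
    (hU : ∀ f, Tendsto (fun n : ℕ => (U ^ n) f) atTop (𝓝 0))
    (hinv : IsUnit (1 + U)) : IsMeanErgodic (-U * (1 + N)) := by
  intro f
  refine ⟨0, ?_⟩
  obtain ⟨R, hR1, hR2⟩ := isUnit_iff_exists.1 hinv
  have hXN : -U * N = N * -U := by rw [neg_mul, mul_neg, hUN]
  obtain ⟨X, hX⟩ : ∃ X, X = -U := ⟨_, rfl⟩
  rw [← hX] at hXN ⊢
  have hR : R * (1 - X) = 1 := by rw [hX, sub_neg_eq_add]; exact hR2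
  have hXt : ∀ g, Tendsto (fun n : ℕ => (X ^ n) g) atTop (𝓝 0) := by
    intro g
    rw [tendsto_zero_iff_norm_tendsto_zero]
    refine (tendsto_zero_iff_norm_tendsto_zero.1 (hU g)).congr fun n => ?_
    rw [hX, neg_pow]
    rcases neg_one_pow_eq_or (E →L[ℂ] E) n with h | h <;> rw [h]
    · rw [one_mul]
    · rw [neg_one_mul, neg_apply, norm_neg]
  have hS0 : ∀ n : ℕ, ∑ k ∈ Finset.range n, X ^ k = R * (1 - X ^ n) := by
    intro n
    rw [← mul_neg_geom_sum X n, ← mul_assoc, hR, one_mul]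
  have hS1 : ∀ n : ℕ, ∑ k ∈ Finset.range n, (k : E →L[ℂ] E) * X ^ k =
      R * (X * (R * (1 - X ^ n)) - (n : E →L[ℂ] E) * X ^ n) := by
    intro n
    rw [← hS0, ← sum_formula, ← mul_assoc, hR, one_mul]
  have hsum : ∀ n : ℕ, ∑ k ∈ Finset.range n, (X * (1 + N)) ^ k =
      R * (1 - X ^ n) + R * (X * (R * (1 - X ^ n)) - (n : E →L[ℂ] E) * X ^ n) * N := by
    intro n
    rw [← hS1 n, ← hS0 n, Finset.sum_mul, ← Finset.sum_add_distrib]
    refine Finset.sum_congr rfl fun k _ => ?_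
    rw [pow_formula X N hXN hN, mul_add, mul_one]
    congr 1
    rw [← mul_assoc, (Nat.cast_commute k (X ^ k)).eq]
  have hsumf : ∀ n : ℕ, 1 ≤ n → ((n : ℂ)⁻¹) • ∑ k ∈ Finset.range n, ((X * (1 + N)) ^ k) f =
      ((n : ℂ)⁻¹) • R (f - (X ^ n) f) + ((n : ℂ)⁻¹) • R (X (R (N f - (X ^ n) (N f)))) -
        R ((X ^ n) (N f)) := by
    intro n hn
    have hn0 : (n : ℂ) ≠ 0 := by exact_mod_cast (by omega : n ≠ 0)
    have h1 : ∑ k ∈ Finset.range n, ((X * (1 + N)) ^ k) f =
        (∑ k ∈ Finset.range n, (X * (1 + N)) ^ k) f := by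
      rw [sum_apply]
    have h2 : (n : E →L[ℂ] E) = (n : ℂ) • 1 := by
      rw [Nat.cast_smul_eq_nsmul, nsmul_eq_mul, mul_one]
    rw [h1, hsum, h2]
    simp only [add_apply, mul_apply_eq_comp, sub_apply,
      one_apply_eq_self, smul_apply, map_sub, map_smul, smul_add,
      smul_sub, smul_smul, inv_mul_cancel₀ hn0, one_smul]
    abel
  have hinvn : Tendsto (fun n : ℕ => ((n : ℂ)⁻¹)) atTop (𝓝 0) :=
    tendsto_inv_atTop_nhds_zero_nat
  have t1 : Tendsto (fun n : ℕ => ((n : ℂ)⁻¹) • R (f - (X ^ n) f)) atTop (𝓝 0) := by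
    have h1 : Tendsto (fun n : ℕ => R (f - (X ^ n) f)) atTop (𝓝 (R (f - 0))) :=
      (R.continuous.tendsto _).comp (tendsto_const_nhds.sub (hXt f))
    simpa using hinvn.smul h1
  have t2 : Tendsto (fun n : ℕ => ((n : ℂ)⁻¹) • R (X (R (N f - (X ^ n) (N f))))) atTop (𝓝 0) := by
    have h1 : Tendsto (fun n : ℕ => R (X (R (N f - (X ^ n) (N f))))) atTop
        (𝓝 (R (X (R (N f - 0))))) :=
      ((R.continuous.comp (X.continuous.comp R.continuous)).tendsto _).comp
        (tendsto_const_nhds.sub (hXt (N f)))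
    simpa using hinvn.smul h1
  have t3 : Tendsto (fun n : ℕ => R ((X ^ n) (N f))) atTop (𝓝 0) := by
    have := (R.continuous.tendsto _).comp (hXt (N f))
    rwa [map_zero] at this
  have t4 := (t1.add t2).sub t3
  rw [add_zero, sub_zero] at t4
  refine t4.congr' ?_
  filter_upwards [eventually_ge_atTop 1] with n hn
  exact (hsumf n hn).symm

omit [CompleteSpace E] in
/-- criterion for unboundedness of the powers -/
theorem not_powerBounded_of (U N : E →L[ℂ] E) (hUN : U * N = N * U) (hN : N * N = 0)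
    (hU1 : ‖U‖ ≤ 1)
    (ha : ∀ m : ℕ, ∃ a : E, ‖a‖ ≤ √m ∧ ‖U a - a‖ ≤ 2 ∧ √m ≤ ‖N a‖) :
    ¬ IsPowerBounded (-U * (1 + N)) := by
  rintro ⟨C, hC⟩
  have hUn : ∀ (n : ℕ) (g : E), ‖(U ^ n) g‖ ≤ ‖g‖ := by
    intro n g
    calc ‖(U ^ n) g‖ ≤ ‖U ^ n‖ * ‖g‖ := (U ^ n).le_opNorm g
      _ ≤ 1 * ‖g‖ := by
        gcongr
        rcases Nat.eq_zero_or_pos n with h | h
        · rw [h, pow_zero]; exact ContinuousLinearMap.norm_id_le
        · exact (norm_pow_le' U h).trans (pow_le_one₀ (norm_nonneg _) hU1)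
      _ = _ := one_mul _
  have hXN : -U * N = N * -U := by rw [neg_mul, mul_neg, hUN]
  have hdiff : ∀ (n m : ℕ) (a : E), ‖U a - a‖ ≤ 2 → ‖(U ^ n) a - a‖ ≤ 2 * n := by
    intro n m a h
    induction n with
    | zero => simp
    | succ n ih =>
      have : (U ^ (n + 1)) a - a = (U ^ n) (U a - a) + ((U ^ n) a - a) := by
        rw [map_sub, pow_succ]
        show (U ^ n) (U a) - a = _
        abel
      rw [this]
      calc _ ≤ ‖(U ^ n) (U a - a)‖ + ‖(U ^ n) a - a‖ := norm_add_le _ _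
        _ ≤ 2 + 2 * n := add_le_add ((hUn n _).trans h) ih
        _ = 2 * ((n + 1 : ℕ) : ℝ) := by push_cast; ring
  -- the main estimate
  have hmain : ∀ n m : ℕ, (n : ℝ) * (√m - ‖N‖ * (2 * n)) - √m ≤ C * √m := by
    intro n m
    obtain ⟨a, ha1, ha2, ha3⟩ := ha m
    have h1 : ‖((-U * (1 + N)) ^ n) a‖ ≤ C * √m := by
      calc _ ≤ ‖(-U * (1 + N)) ^ n‖ * ‖a‖ := ContinuousLinearMap.le_opNorm _ _
        _ ≤ C * √m := mul_le_mul (hC n) ha1 (norm_nonneg _) ((norm_nonneg _).trans (hC n))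
    have h2 : ‖((-U * (1 + N)) ^ n) a‖ = ‖(U ^ n) a + (n : ℂ) • (U ^ n) (N a)‖ := by
      rw [pow_formula (-U) N hXN hN, neg_pow]
      have e : (((-1 : E →L[ℂ] E)) ^ n * U ^ n * (1 + (n : E →L[ℂ] E) * N)) a =
          ((-1 : E →L[ℂ] E) ^ n) ((U ^ n) a + (n : ℂ) • (U ^ n) (N a)) := by
        have h3 : (n : E →L[ℂ] E) = (n : ℂ) • 1 := by
          rw [Nat.cast_smul_eq_nsmul, nsmul_eq_mul, mul_one]
        rw [h3]
        simp only [mul_apply_eq_comp, add_apply, one_apply_eq_self,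
          smul_mul_assoc, one_mul, smul_apply, map_add, map_smul]
      rw [e]
      rcases neg_one_pow_eq_or (E →L[ℂ] E) n with h | h <;> rw [h]
      · rw [one_apply_eq_self]
      · rw [neg_apply, one_apply_eq_self, norm_neg]
    have h3 : ‖(U ^ n) (N a)‖ ≥ √m - ‖N‖ * (2 * n) := by
      have e1 : (U ^ n) (N a) = N a + N ((U ^ n) a - a) := by
        have hc : U ^ n * N = N * U ^ n := (Commute.pow_left (show Commute U N from hUN) n).eq
        have : (U ^ n) (N a) = N ((U ^ n) a) := by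
          rw [← mul_apply_eq_comp, hc, mul_apply_eq_comp]
        rw [this, map_sub]
        abel
      rw [e1]
      have e2 : ‖N ((U ^ n) a - a)‖ ≤ ‖N‖ * (2 * n) :=
        (N.le_opNorm _).trans (mul_le_mul_of_nonneg_left (hdiff n m a ha2) (norm_nonneg _))
      have e3 := norm_sub_norm_le (N a) (-N ((U ^ n) a - a))
      rw [norm_neg, sub_neg_eq_add] at e3
      linarith
    have h4 : (n : ℝ) * ‖(U ^ n) (N a)‖ - ‖(U ^ n) a‖ ≤
        ‖(U ^ n) a + (n : ℂ) • (U ^ n) (N a)‖ := by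
      have e3 := norm_sub_norm_le ((n : ℂ) • (U ^ n) (N a)) (-(U ^ n) a)
      rw [norm_neg, sub_neg_eq_add, norm_smul, Complex.norm_natCast] at e3
      rw [add_comm ((U ^ n) a)]
      exact e3
    have h5 := hUn n a
    have h6 : (n : ℝ) * (√m - ‖N‖ * (2 * n)) ≤ n * ‖(U ^ n) (N a)‖ :=
      mul_le_mul_of_nonneg_left h3 (Nat.cast_nonneg n)
    rw [h2] at h1
    linarith
  -- choose `n` then `m`
  obtain ⟨n, hn⟩ := exists_nat_gt (C + 2)
  obtain ⟨q, hq⟩ := exists_nat_gt (n * (‖N‖ * (2 * n)))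
  have h := hmain n (q ^ 2)
  have hs : √((q ^ 2 : ℕ) : ℝ) = q := by
    push_cast
    exact Real.sqrt_sq (Nat.cast_nonneg q)
  rw [hs] at h
  have hq0 : (0 : ℝ) < q := lt_of_le_of_lt (by positivity) hq
  nlinarith

end Abstract

section Translations

variable {G : Type} [Group G]

theorem memlp_trans (g : G) (f : L2 G) : Memℓp (fun x => f (g⁻¹ * x)) 2 := by
  have hf := lp.memℓp f
  rw [memℓp_gen_iff (by norm_num)] at hf ⊢
  exact hf.comp_injective (mul_right_injective g⁻¹)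

theorem norm_trans (g : G) (f : L2 G) :
    ‖(⟨fun x => f (g⁻¹ * x), memlp_trans g f⟩ : L2 G)‖ = ‖f‖ := by
  rw [lp.norm_eq_tsum_rpow (by norm_num), lp.norm_eq_tsum_rpow (by norm_num)]
  congr 1
  exact (Equiv.mulLeft g⁻¹).tsum_eq (fun x => ‖f x‖ ^ (2 : ENNReal).toReal)

/-- left translation -/
noncomputable def tr (g : G) : L2 G →L[ℂ] L2 G :=
  LinearMap.mkContinuous
    { toFun := fun f => ⟨fun x => f (g⁻¹ * x), memlp_trans g f⟩
      map_add' := fun _ _ => rfl
      map_smul' := fun _ _ => rfl } 1 (fun f => by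
        rw [one_mul]
        exact (norm_trans g f).le)

theorem tr_apply (g : G) (f : L2 G) (x : G) : tr g f x = f (g⁻¹ * x) := rfl

theorem norm_tr (g : G) (f : L2 G) : ‖tr g f‖ = ‖f‖ := norm_trans g f

theorem tr_mul (g h : G) : tr g * tr h = tr (g * h) := by
  ext f x
  rw [mul_apply_eq_comp, tr_apply, tr_apply, tr_apply, mul_inv_rev, mul_assoc]

theorem tr_one : tr (1 : G) = 1 := by
  ext f x
  rw [tr_apply, inv_one, one_mul, one_apply_eq_self]

theorem norm_tr_le (g : G) : ‖tr g‖ ≤ 1 :=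
  ContinuousLinearMap.opNorm_le_bound _ zero_le_one fun f => by rw [one_mul, norm_tr]

theorem inner_tr (g : G) (f h : L2 G) : inner ℂ (tr g f) h = inner ℂ f (tr g⁻¹ h) := by
  let W : L2 G →ₗᵢ[ℂ] L2 G := ⟨(tr g).toLinearMap, norm_tr g⟩
  have h1 : h = tr g (tr g⁻¹ h) := by
    rw [← mul_apply_eq_comp, tr_mul, mul_inv_cancel, tr_one, one_apply_eq_self]
  conv_lhs => rw [h1]
  exact W.inner_map_map f _

theorem tr_single [DecidableEq G] (g x : G) (c : ℂ) :
    tr g (lp.single 2 x c) = lp.single 2 (g * x) c := by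
  ext y
  rw [tr_apply, lp.single_apply, lp.single_apply]
  by_cases h : g⁻¹ * y = x
  · have h' : y = g * x := by rw [← h, mul_inv_cancel_left]
    rw [Pi.single_apply, Pi.single_apply, if_pos h, if_pos h']
  · have h' : ¬ y = g * x := fun h'' => h (by rw [h'', inv_mul_cancel_left])
    rw [Pi.single_apply, Pi.single_apply, if_neg h, if_neg h']

/-- elements of the algebra generated by translations are convolution operators -/
theorem conv_of_mem (T : L2 G →L[ℂ] L2 G) (hT : T ∈ Algebra.adjoin ℂ (Set.range (tr (G := G)))) :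
    ∃ μ : G →₀ ℂ, IsConvolution μ T := by
  classical
  let M : G →* (L2 G →L[ℂ] L2 G) :=
    { toFun := tr, map_one' := tr_one, map_mul' := fun g h => (tr_mul g h).symm }
  have h1 : T ∈ Submodule.span ℂ (Set.range (tr (G := G))) := by
    have h2 := (Algebra.adjoin_eq_span ℂ (Set.range (tr (G := G))))
    have h3 : (Submonoid.closure (Set.range (tr (G := G))) : Set (L2 G →L[ℂ] L2 G)) =
        Set.range (tr (G := G)) := by
      have : (Set.range (tr (G := G))) = ((MonoidHom.mrange M : Submonoid _) : Set _) := rfl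
      rw [this, Submonoid.closure_eq]
    rw [h3] at h2
    rw [← h2]
    exact hT
  obtain ⟨μ, hμ⟩ := (Finsupp.mem_span_range_iff_exists_finsupp).1 h1
  refine ⟨μ, fun f x => ?_⟩
  rw [← hμ, Finsupp.sum, sum_apply, lp.coeFn_sum, Finset.sum_apply]
  rfl

end Translations

section Example

/-- the group `S₃ × ℤ` -/
abbrev GG : Type := Equiv.Perm (Fin 3) × Multiplicative ℤ

/-- generator of the centre -/
def z : GG := (1, Multiplicative.ofAdd 1)
def s : GG := (Equiv.swap 0 1, 1)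
def c : GG := (Equiv.swap 0 1 * Equiv.swap 1 2, 1)

theorem zpow_eq (j : ℕ) : z ^ j = (1, Multiplicative.ofAdd (j : ℤ)) := by
  unfold z
  rw [Prod.pow_mk, one_pow, ← ofAdd_nsmul]
  simp

theorem z_central (g : GG) : z * g = g * z := by
  unfold z
  ext1
  · simp
  · exact mul_comm _ _

theorem zpow_inj : Function.Injective fun j : ℕ => z ^ j := by
  intro i j h
  have h' : z ^ i = z ^ j := h
  rw [zpow_eq, zpow_eq] at h'
  have h2 := (Prod.ext_iff.1 h').2
  have h3 : (i : ℤ) = j := Multiplicative.ofAdd.injective h2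
  exact_mod_cast h3

/-- the symmetric contraction -/
noncomputable def S : L2 GG →L[ℂ] L2 GG := (1 / 2 : ℂ) • (tr z + tr z⁻¹)

/-- the nilpotent element -/
noncomputable def N : L2 GG →L[ℂ] L2 GG := (1 - tr s) * tr c * (1 + tr s)

theorem S_norm : ‖S‖ ≤ 1 := by
  unfold S
  rw [norm_smul]
  have h1 : ‖tr z + tr z⁻¹‖ ≤ 2 :=
    (norm_add_le _ _).trans (by linarith [norm_tr_le z, norm_tr_le z⁻¹])
  have h2 : ‖(1 / 2 : ℂ)‖ = 1 / 2 := by norm_num
  rw [h2]
  linarith

theorem S_symm (f g : L2 GG) : inner ℂ (S f) g = inner ℂ f (S g) := by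
  unfold S
  have h1 : ∀ f : L2 GG, ((1 / 2 : ℂ) • (tr z + tr z⁻¹)) f = (1 / 2 : ℂ) • (tr z f + tr z⁻¹ f) :=
    fun f => rfl
  rw [h1, h1, inner_smul_left, inner_smul_right, inner_add_left, inner_add_right, inner_tr,
    inner_tr, inv_inv, add_comm (inner ℂ f _)]
  congr 1
  simp only [map_div₀, map_one, map_ofNat]

theorem S_sq : S ^ 2 = (1 / 4 : ℂ) • (tr (z * z) + (2 : ℂ) • 1 + tr (z⁻¹ * z⁻¹)) := by
  unfold S
  rw [sq, smul_mul_smul_comm, add_mul, mul_add, mul_add, tr_mul, tr_mul, tr_mul, tr_mul,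
    mul_inv_cancel, inv_mul_cancel, tr_one]
  rw [show (1 / 2 : ℂ) * (1 / 2) = 1 / 4 by norm_num]
  module

theorem S_fix (f : L2 GG) (hf : S (S f) = f) : f = 0 := by
  have h1 : (S ^ 2) f = f := by rw [sq]; exact hf
  rw [S_sq] at h1
  have h2 : ∀ x, f (z * (z * x)) + f (z⁻¹ * (z⁻¹ * x)) = 2 * f x := by
    intro x
    have h3 := congrArg (fun g : L2 GG => g x) h1
    have h4 : ((1 / 4 : ℂ) • (tr (z * z) + (2 : ℂ) • 1 + tr (z⁻¹ * z⁻¹)) :
        L2 GG →L[ℂ] L2 GG) f x =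
        (1 / 4 : ℂ) * (f ((z * z)⁻¹ * x) + 2 * f x + f ((z⁻¹ * z⁻¹)⁻¹ * x)) := rfl
    have h5 : (1 / 4 : ℂ) * (f ((z * z)⁻¹ * x) + 2 * f x + f ((z⁻¹ * z⁻¹)⁻¹ * x)) = f x := by
      rw [← h4]; exact h3
    rw [mul_inv_rev, mul_inv_rev, inv_inv, mul_assoc, mul_assoc] at h5
    linear_combination 4 * h5
  have hz0 : Tendsto (fun x => ‖f x‖) cofinite (𝓝 0) := by
    have hf' := lp.memℓp f
    rw [memℓp_gen_iff (by norm_num)] at hf'
    have h3 := hf'.tendsto_cofinite_zero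
    have h4 : (fun x => ‖f x‖ ^ (2 : ENNReal).toReal) = fun x => ‖f x‖ ^ 2 := by
      funext x
      rw [ENNReal.toReal_ofNat, Real.rpow_ofNat]
    rw [h4] at h3
    have h5 := h3.sqrt
    rw [Real.sqrt_zero] at h5
    refine h5.congr fun x => ?_
    rw [Real.sqrt_sq (norm_nonneg _)]
  have hz1 : Tendsto (fun x => f x) cofinite (𝓝 0) := tendsto_zero_iff_norm_tendsto_zero.2 hz0
  ext x
  let a : ℕ → ℂ := fun j => f ((z * z) ^ j * x)
  have hinj : Function.Injective fun j : ℕ => (z * z) ^ j * x := by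
    intro i j h
    have h3 : (z * z) ^ i = (z * z) ^ j := mul_right_cancel h
    rw [← sq, ← pow_mul, ← pow_mul] at h3
    have := zpow_inj h3
    omega
  have ha : Tendsto a atTop (𝓝 0) := by
    have := hz1.comp hinj.tendsto_cofinite
    rwa [Nat.cofinite_eq_atTop] at this
  have hrec : ∀ j, a (j + 2) = 2 * a (j + 1) - a j := by
    intro j
    have h3 := h2 ((z * z) ^ (j + 1) * x)
    have e1 : z * (z * ((z * z) ^ (j + 1) * x)) = (z * z) ^ (j + 2) * x := by
      rw [← mul_assoc, ← mul_assoc, ← pow_succ']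
    have e2 : z⁻¹ * (z⁻¹ * ((z * z) ^ (j + 1) * x)) = (z * z) ^ j * x := by
      rw [pow_succ', mul_assoc, mul_assoc, inv_mul_cancel_left, inv_mul_cancel_left]
    rw [e1, e2] at h3
    show f ((z * z) ^ (j + 2) * x) = 2 * f ((z * z) ^ (j + 1) * x) - f ((z * z) ^ j * x)
    linear_combination h3
  have hlin : ∀ j : ℕ, a j = a 0 + j * (a 1 - a 0) ∧ a (j + 1) = a 0 + (j + 1) * (a 1 - a 0) := by
    intro j
    induction j with
    | zero => constructor <;> simp
    | succ j ih =>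
      refine ⟨by rw [ih.2]; push_cast; ring, ?_⟩
      rw [hrec, ih.1, ih.2]
      push_cast
      ring
  have hd : a 1 - a 0 = 0 := by
    have h3 : Tendsto (fun j => a (j + 1) - a j) atTop (𝓝 (0 - 0)) :=
      (ha.comp (tendsto_add_atTop_nat 1)).sub ha
    rw [sub_zero] at h3
    have h4 : (fun j => a (j + 1) - a j) = fun _ => a 1 - a 0 := by
      funext j
      rw [(hlin j).1, (hlin j).2]
      ring
    rw [h4] at h3
    exact tendsto_nhds_unique tendsto_const_nhds h3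
  have ha0 : a 0 = 0 := by
    have h4 : a = fun _ => a 0 := by
      funext j
      rw [(hlin j).1, hd, mul_zero, add_zero]
    rw [h4] at ha
    exact tendsto_nhds_unique tendsto_const_nhds ha
  have : a 0 = f x := by
    show f ((z * z) ^ 0 * x) = f x
    rw [pow_zero, one_mul]
  rw [← this, ha0]
  rfl

theorem S_unit : IsUnit (1 + S ^ 2) := by
  rw [S_sq]
  have h1 : (1 : L2 GG →L[ℂ] L2 GG) + (1 / 4 : ℂ) •
      (tr (z * z) + (2 : ℂ) • 1 + tr (z⁻¹ * z⁻¹)) =
      (3 / 2 : ℂ) • (1 - (-(1 / 6) : ℂ) • (tr (z * z) + tr (z⁻¹ * z⁻¹))) := by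
    module
  rw [h1]
  have h2 : IsUnit (1 - (-(1 / 6) : ℂ) • (tr (z * z) + tr (z⁻¹ * z⁻¹)) : L2 GG →L[ℂ] L2 GG) := by
    refine isUnit_one_sub_of_norm_lt_one ?_
    rw [norm_smul]
    have h3 : ‖tr (z * z) + tr (z⁻¹ * z⁻¹)‖ ≤ 2 :=
      (norm_add_le _ _).trans (by linarith [norm_tr_le (z * z), norm_tr_le (z⁻¹ * z⁻¹)])
    have h4 : ‖(-(1 / 6) : ℂ)‖ = 1 / 6 := by
      rw [norm_neg]; norm_num
    rw [h4]
    linarith
  exact h2.smul (Units.mk0 (3 / 2 : ℂ) (by norm_num))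

theorem N_sq : N * N = 0 := by
  have h1 : (1 + tr s) * (1 - tr s) = (0 : L2 GG →L[ℂ] L2 GG) := by
    have hs : s * s = 1 := by decide
    rw [add_mul, mul_sub, mul_sub, tr_mul, hs, tr_one]
    noncomm_ring
  unfold N
  calc (1 - tr s) * tr c * (1 + tr s) * ((1 - tr s) * tr c * (1 + tr s))
      = (1 - tr s) * tr c * ((1 + tr s) * (1 - tr s)) * tr c * (1 + tr s) := by noncomm_ring
    _ = 0 := by rw [h1]; noncomm_ring

theorem N_eq : N = tr c + tr (c * s) - tr (s * c) - tr (s * c * s) := by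
  have h1 : (1 - tr s) * tr c = tr c - tr (s * c) := by
    rw [sub_mul, one_mul, tr_mul]
  unfold N
  rw [h1, mul_add, mul_one, sub_mul, tr_mul, tr_mul]
  abel

theorem commute_tr (g : GG) : Commute (tr z) (tr g) := by
  unfold Commute SemiconjBy
  rw [tr_mul, tr_mul, z_central]

theorem commute_tr' (g : GG) : Commute (tr z⁻¹) (tr g) := by
  unfold Commute SemiconjBy
  rw [tr_mul, tr_mul]
  congr 1
  rw [inv_mul_eq_iff_eq_mul, ← mul_assoc, z_central, mul_assoc, mul_inv_cancel, mul_one]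

theorem commute_S (g : GG) : Commute S (tr g) :=
  ((commute_tr g).add_left (commute_tr' g)).smul_left _

theorem commute_SN : S ^ 2 * N = N * S ^ 2 := by
  have h1 : Commute S N := by
    unfold N
    exact (((Commute.one_right S).sub_right (commute_S s)).mul_right (commute_S c)).mul_right
      ((Commute.one_right S).add_right (commute_S s))
  exact (h1.pow_left 2).eq

/-- the test vectors -/
noncomputable def tv (m : ℕ) : L2 GG := ∑ j ∈ Finset.range m, lp.single 2 (z ^ j) (1 : ℂ)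

theorem tv_eq (m : ℕ) : tv m =
    ∑ x ∈ (Finset.range m).image (fun j => z ^ j), lp.single 2 x (1 : ℂ) := by
  unfold tv
  rw [Finset.sum_image fun i _ j _ h => zpow_inj h]

theorem tv_norm (m : ℕ) : ‖tv m‖ = √m := by
  have h := lp.norm_sum_single (p := 2) (by norm_num) (fun _ : GG => (1 : ℂ))
    ((Finset.range m).image (fun j => z ^ j))
  rw [← tv_eq] at h
  simp only [norm_one, Finset.sum_const, nsmul_eq_mul,
    ENNReal.toReal_ofNat, Real.rpow_ofNat] at h
  rw [Finset.card_image_of_injective _ zpow_inj, Finset.card_range, one_pow, mul_one] at h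
  rw [← h, Real.sqrt_sq (norm_nonneg _)]

theorem tv_apply (m : ℕ) (x : GG) :
    tv m x = if x ∈ (Finset.range m).image (fun j => z ^ j) then 1 else 0 := by
  rw [tv_eq, lp.coeFn_sum, Finset.sum_apply]
  simp only [lp.single_apply, Pi.single_apply]
  rw [Finset.sum_ite_eq]

theorem tv_shift (m : ℕ) : ‖tr z (tv m) - tv m‖ ≤ 2 := by
  have h1 : tr z (tv m) - tv m = lp.single 2 (z ^ m) (1 : ℂ) - lp.single 2 (z ^ 0) (1 : ℂ) := by
    let F : ℕ → L2 GG := fun j => lp.single 2 (z ^ j) (1 : ℂ)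
    have h0 := Finset.sum_range_sub F m
    unfold tv
    rw [map_sum, ← Finset.sum_sub_distrib]
    refine Eq.trans (Finset.sum_congr rfl fun j _ => ?_) h0
    rw [tr_single, ← pow_succ']
  rw [h1]
  refine (norm_sub_le _ _).trans ?_
  rw [lp.norm_single (by norm_num), lp.norm_single (by norm_num), norm_one]
  norm_num

theorem tv_shift2 (m : ℕ) : ‖tr (z * z) (tv m) - tv m‖ ≤ 4 := by
  have h1 : tr (z * z) (tv m) - tv m = tr z (tr z (tv m) - tv m) + (tr z (tv m) - tv m) := by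
    rw [map_sub, ← tr_mul, mul_apply_eq_comp]
    abel
  rw [h1]
  refine (norm_add_le _ _).trans ?_
  rw [norm_tr]
  linarith [tv_shift m]

theorem tv_shift3 (m : ℕ) : ‖tr (z⁻¹ * z⁻¹) (tv m) - tv m‖ ≤ 4 := by
  have h1 : tr (z⁻¹ * z⁻¹) (tv m) - tv m = -(tr (z⁻¹ * z⁻¹) (tr (z * z) (tv m) - tv m)) := by
    rw [map_sub, ← mul_apply_eq_comp, tr_mul]
    rw [show z⁻¹ * z⁻¹ * (z * z) = 1 by group, tr_one, one_apply_eq_self]
    abel
  rw [h1, norm_neg, norm_tr]
  exact tv_shift2 m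

theorem tv_U (m : ℕ) : ‖(S ^ 2) (tv m) - tv m‖ ≤ 2 := by
  have h1 : (S ^ 2) (tv m) - tv m = (1 / 4 : ℂ) • (tr (z * z) (tv m) - tv m) +
      (1 / 4 : ℂ) • (tr (z⁻¹ * z⁻¹) (tv m) - tv m) := by
    rw [S_sq]
    have : ((1 / 4 : ℂ) • (tr (z * z) + (2 : ℂ) • 1 + tr (z⁻¹ * z⁻¹)) :
        L2 GG →L[ℂ] L2 GG) (tv m) = (1 / 4 : ℂ) • (tr (z * z) (tv m) + (2 : ℂ) • tv m +
          tr (z⁻¹ * z⁻¹) (tv m)) := rfl
    rw [this]
    module
  have h4 : ‖(1 / 4 : ℂ)‖ = 1 / 4 := by norm_num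
  rw [h1]
  refine (norm_add_le _ _).trans ?_
  rw [norm_smul, norm_smul, h4]
  linarith [tv_shift2 m, tv_shift3 m]

theorem tv_zero (m : ℕ) (x : GG) (hx : x.1 ≠ 1) : tv m x = 0 := by
  rw [tv_apply, if_neg]
  intro h
  rw [Finset.mem_image] at h
  obtain ⟨j, -, rfl⟩ := h
  apply hx
  rw [zpow_eq]

theorem tv_one (m j : ℕ) (hj : j < m) : tv m (z ^ j) = 1 := by
  rw [tv_apply, if_pos]
  exact Finset.mem_image_of_mem _ (Finset.mem_range.2 hj)

theorem tv_N (m : ℕ) : √m ≤ ‖N (tv m)‖ := by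
  have hval : ∀ j < m, N (tv m) (c * z ^ j) = 1 := by
    intro j hj
    rw [N_eq]
    have : (tr c + tr (c * s) - tr (s * c) - tr (s * c * s) : L2 GG →L[ℂ] L2 GG) (tv m)
        (c * z ^ j) = tv m (c⁻¹ * (c * z ^ j)) + tv m ((c * s)⁻¹ * (c * z ^ j)) -
        tv m ((s * c)⁻¹ * (c * z ^ j)) - tv m ((s * c * s)⁻¹ * (c * z ^ j)) := rfl
    rw [this, inv_mul_cancel_left, tv_one m j hj, tv_zero, tv_zero, tv_zero]
    · ring
    · rw [zpow_eq]
      show (s * c * s).1⁻¹ * (c.1 * 1) ≠ 1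
      decide
    · rw [zpow_eq]
      show (s * c).1⁻¹ * (c.1 * 1) ≠ 1
      decide
    · rw [zpow_eq]
      show (c * s).1⁻¹ * (c.1 * 1) ≠ 1
      decide
  have hinj : Function.Injective fun j : ℕ => c * z ^ j := fun i j h => zpow_inj (mul_left_cancel h)
  have h1 := lp.sum_rpow_le_norm_rpow (p := 2) (by norm_num) (N (tv m))
    ((Finset.range m).image fun j => c * z ^ j)
  rw [Finset.sum_image fun i _ j _ h => hinj h] at h1
  have h2 : ∑ j ∈ Finset.range m, ‖N (tv m) (c * z ^ j)‖ ^ (2 : ENNReal).toReal = m := by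
    rw [Finset.sum_congr rfl fun j hj => by rw [hval j (Finset.mem_range.1 hj)]]
    simp
  rw [h2, ENNReal.toReal_ofNat, Real.rpow_ofNat] at h1
  exact (Real.sqrt_le_left (norm_nonneg _)).2 h1

end Example

/-- There are a (countable discrete) group `G` and a finitely supported complex measure `μ` on `G`
whose convolution operator on `L²(G)` is mean ergodic but not power bounded. -/
theorem result : ∃ (G : Type) (_ : Group G) (μ : G →₀ ℂ) (T : L2 G →L[ℂ] L2 G),
    IsConvolution μ T ∧ IsMeanErgodic T ∧ ¬ IsPowerBounded T := by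
  have hmem : ∀ g : GG, tr g ∈ Algebra.adjoin ℂ (Set.range (tr (G := GG))) := fun g =>
    Algebra.subset_adjoin ⟨g, rfl⟩
  have hS : S ∈ Algebra.adjoin ℂ (Set.range (tr (G := GG))) :=
    Subalgebra.smul_mem _ (Subalgebra.add_mem _ (hmem _) (hmem _)) _
  have hN : N ∈ Algebra.adjoin ℂ (Set.range (tr (G := GG))) :=
    Subalgebra.mul_mem _ (Subalgebra.mul_mem _ (Subalgebra.sub_mem _ (Subalgebra.one_mem _)
      (hmem _)) (hmem _)) (Subalgebra.add_mem _ (Subalgebra.one_mem _) (hmem _))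
  have hT : -(S ^ 2) * (1 + N) ∈ Algebra.adjoin ℂ (Set.range (tr (G := GG))) :=
    Subalgebra.mul_mem _ (Subalgebra.neg_mem _ (Subalgebra.pow_mem _ hS 2))
      (Subalgebra.add_mem _ (Subalgebra.one_mem _) hN)
  obtain ⟨μ, hμ⟩ := conv_of_mem _ hT
  refine ⟨GG, inferInstance, μ, _, hμ, ?_, ?_⟩
  · exact meanErgodic_of (S ^ 2) N commute_SN N_sq (pow_tendsto S S_norm S_symm S_fix) S_unit
  · refine not_powerBounded_of (S ^ 2) N commute_SN N_sq ?_ fun m =>
      ⟨tv m, (tv_norm m).le, tv_U m, tv_N m⟩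
    exact (norm_pow_le' S two_pos).trans (pow_le_one₀ (norm_nonneg _) S_norm)

end Pool.Agent.Results.MP_27f8b5_an.MeanErgodic
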